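import Mathlib
import Pool.Agent.H435R3.Hayashi

set_option autoImplicit false

/-!
# A finite generating conjugacy class in which central powers are not witnessed

`W` is the wreath product of `ZMod 105` with `Perm (Fin 5)` and `g = ((0,0,36,85,91), (0 1))`.
The group is the normal closure `N` of `g` in `W`; the class of `g` in `N` generates `N`, and for
all `c`, `z` in this class one of `c ^ 30`, `c ^ 42`, `c ^ 70` commutes with `z`, while none of the
three is central.
-/

namespace Pool.Agent.Results.MP_d14d1f_al.NoWitness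

open Pool.Agent.H435R3.Hayashi

/-- `C` is a conjugacy class of the group `G`, it is a finite set, and it generates `G`. -/
def FiniteGeneratingClass (G : Type) [Group G] (C : Set G) : Prop :=
  (∃ c : G, C = {x : G | IsConj c x}) ∧ C.Finite ∧ Subgroup.closure C = ⊤

/-- the group -/
abbrev N : Type := (Subgroup.normalClosure {g} : Subgroup W)

/-- the base point -/
def gN : N := ⟨g, g_mem⟩

/-- every conjugate of `g` in `W` is a conjugate by an element of `N` -/
lemma conj_by_N (h : W) : ∃ n : N, h * g * h⁻¹ = (n * gN * n⁻¹ : N) := by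
  have hh : h ∈ Subgroup.normalClosure {g} ⊔ Subgroup.centralizer {g} := by
    rw [sup_eq_top]; trivial
  rw [Subgroup.mem_sup_of_normal_left] at hh
  obtain ⟨n, hn, c, hc, rfl⟩ := hh
  refine ⟨⟨n, hn⟩, ?_⟩
  rw [Subgroup.mem_centralizer_singleton_iff] at hc
  have h2 : c * g * c⁻¹ = g := by rw [hc]; group
  calc n * c * g * (n * c)⁻¹ = n * (c * g * c⁻¹) * n⁻¹ := by group
    _ = n * g * n⁻¹ := by rw [h2]

/-- the class -/
def C : Set N := {x : N | IsConj gN x}

lemma mem_C_of_conj (h : W) (x : N) (hx : h * g * h⁻¹ = (x : W)) : x ∈ C := by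
  obtain ⟨n, hn⟩ := conj_by_N h
  rw [hx] at hn
  have : x = n * gN * n⁻¹ := Subtype.ext hn
  rw [this]
  exact isConj_iff.2 ⟨n, rfl⟩

lemma closure_C : Subgroup.closure C = ⊤ := by
  rw [eq_top_iff]
  intro x _
  have h1 : (Subgroup.normalClosure {g} : Subgroup W) ≤
      (Subgroup.closure C).map (Subgroup.normalClosure {g} : Subgroup W).subtype := by
    unfold Subgroup.normalClosure
    rw [Subgroup.closure_le]
    intro y hy
    rw [Group.mem_conjugatesOfSet_iff] at hy
    obtain ⟨a, ha, hy⟩ := hy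
    rw [Set.mem_singleton_iff] at ha
    subst ha
    rw [isConj_iff] at hy
    obtain ⟨h, hh⟩ := hy
    have hyN : y ∈ Subgroup.normalClosure {g} := by rw [← hh]; exact conj_g_mem h
    refine ⟨⟨y, hyN⟩, Subgroup.subset_closure (mem_C_of_conj h ⟨y, hyN⟩ hh), rfl⟩
  obtain ⟨y, hy, hyx⟩ := h1 x.2
  have : y = x := Subtype.ext hyx
  rw [← this]
  exact hy

lemma pow_commute_iff (m : ℕ) (u : Fin 5 → ZMod 105) (hm : g ^ m = tr u) (z : N) :
    Commute (gN ^ m) z ↔ ∀ i, u i = u ((z : W).s⁻¹ i) := by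
  rw [← conj_tr_eq_iff, ← hm]
  constructor
  · intro h
    have h1 : ((gN ^ m : N) : W) * (z : W) = (z : W) * ((gN ^ m : N) : W) :=
      congrArg Subtype.val h.eq
    have h2 : ((gN ^ m : N) : W) = g ^ m := rfl
    rw [h2] at h1
    rw [h1]
    group
  · intro h
    apply Subtype.ext
    show g ^ m * (z : W) = (z : W) * g ^ m
    rw [mul_inv_eq_iff_eq_mul] at h
    exact h

lemma s_of_mem {z : N} (hz : z ∈ C) : ∃ a b : Fin 5, (z : W).s = Equiv.swap a b := by
  obtain ⟨h, hh⟩ := isConj_iff.1 hz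
  refine ⟨(h : W).s 0, (h : W).s 1, ?_⟩
  rw [← hh, Equiv.swap_apply_apply]
  rfl

lemma commute_of_mem {z : N} (hz : z ∈ C) :
    Commute (gN ^ 30) z ∨ Commute (gN ^ 42) z ∨ Commute (gN ^ 70) z := by
  rw [pow_commute_iff 30 _ g30, pow_commute_iff 42 _ g42, pow_commute_iff 70 _ g70]
  obtain ⟨a, b, hab⟩ := s_of_mem hz
  rw [hab, Equiv.swap_inv]
  exact cover a b

/-- further points of the class -/
def q (s : Equiv.Perm (Fin 5)) : N := ⟨pe s * g * (pe s)⁻¹, conj_g_mem (pe s)⟩

lemma q_s (s : Equiv.Perm (Fin 5)) : ((q s : N) : W).s = Equiv.swap (s 0) (s 1) := by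
  rw [Equiv.swap_apply_apply]
  rfl

lemma comm_of_center {x : N} (h : x ∈ Subgroup.center N) (y : N) : Commute x y :=
  ((Subgroup.mem_center_iff.1 h) y).symm

lemma not_central_30 : gN ^ 30 ∉ Subgroup.center N := by
  intro h
  have h1 : Commute (gN ^ 30) (q (Equiv.swap 0 2 * Equiv.swap 1 4)) :=
    comm_of_center h _
  rw [pow_commute_iff 30 _ g30, q_s, Equiv.swap_inv] at h1
  revert h1
  decide

lemma not_central_42 : gN ^ 42 ∉ Subgroup.center N := by
  intro h
  have h1 : Commute (gN ^ 42) (q (Equiv.swap 0 2 * Equiv.swap 1 3)) :=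
    comm_of_center h _
  rw [pow_commute_iff 42 _ g42, q_s, Equiv.swap_inv] at h1
  revert h1
  decide

lemma not_central_70 : gN ^ 70 ∉ Subgroup.center N := by
  intro h
  have h1 : Commute (gN ^ 70) (q (Equiv.swap 0 2 * Equiv.swap 1 3)) :=
    comm_of_center h _
  rw [pow_commute_iff 70 _ g70, q_s, Equiv.swap_inv] at h1
  revert h1
  decide

lemma base_case {z : N} (hz : z ∈ C) :
    ∃ k : ℕ, k ∈ ({30, 42, 70} : Set ℕ) ∧ Commute (gN ^ k) z ∧ gN ^ k ∉ Subgroup.center N := by
  rcases commute_of_mem hz with h | h | h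
  · exact ⟨30, by simp, h, not_central_30⟩
  · exact ⟨42, by simp, h, not_central_42⟩
  · exact ⟨70, by simp, h, not_central_70⟩

/-- There are a finite group `G` and a conjugacy class `C` of `G` generating `G` such that for every
`c ∈ C` and every `z ∈ C` one of the powers `c ^ 30`, `c ^ 42`, `c ^ 70` commutes with `z` and is
not central in `G`. -/
theorem result : ∃ (G : Type) (_ : Group G) (_ : Finite G) (C : Set G),
    FiniteGeneratingClass G C ∧
      ∀ c ∈ C, ∀ z ∈ C, ∃ k : ℕ, k ∈ ({30, 42, 70} : Set ℕ) ∧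
        Commute (c ^ k) z ∧ c ^ k ∉ Subgroup.center G := by
  refine ⟨N, inferInstance, inferInstance, C, ⟨⟨gN, rfl⟩, Set.toFinite _, closure_C⟩, ?_⟩
  intro c hc z hz
  obtain ⟨n, hn⟩ := isConj_iff.1 hc
  have hz' : n⁻¹ * z * n ∈ C := by
    have h1 : IsConj gN z := hz
    refine h1.trans (isConj_iff.2 ⟨n⁻¹, by group⟩)
  obtain ⟨k, hk, h1, h2⟩ := base_case hz'
  have hck : c ^ k = n * gN ^ k * n⁻¹ := by rw [← hn, conj_pow]
  refine ⟨k, hk, ?_, ?_⟩
  · rw [hck]
    have h3 : gN ^ k * (n⁻¹ * z * n) = n⁻¹ * z * n * gN ^ k := h1.eq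
    show n * gN ^ k * n⁻¹ * z = z * (n * gN ^ k * n⁻¹)
    calc n * gN ^ k * n⁻¹ * z = n * (gN ^ k * (n⁻¹ * z * n)) * n⁻¹ := by group
      _ = n * (n⁻¹ * z * n * gN ^ k) * n⁻¹ := by rw [h3]
      _ = z * (n * gN ^ k * n⁻¹) := by group
  · intro h3
    apply h2
    have h4 := (inferInstance : (Subgroup.center N).Normal).conj_mem _ h3 n⁻¹
    rw [hck] at h4
    have h5 : n⁻¹ * (n * gN ^ k * n⁻¹) * n⁻¹⁻¹ = gN ^ k := by group
    rw [h5] at h4
    exact h4

end Pool.Agent.Results.MP_d14d1f_al.NoWitness
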